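import Pool.Agent.L7h31.KN.Stm

set_option autoImplicit false

namespace Pool.Agent.L7h7.KN

open Pool.Agent.L7h31 Pool.Agent.L7h31.KN

variable {ι : Type} [Fintype ι] [DecidableEq ι]

theorem const_of (f : (ι → Bool) → ZMod 2) (h : ∀ j, D j f = 0) (y y' : ι → Bool) :
    f y' = f y := by
  have hfl : ∀ j z, f (L7h31.KN.flip j z) = f z := by
    intro j z
    have := congrFun (h j) z
    simp only [D, Pi.zero_apply] at this
    exact (CharTwo.add_eq_zero.mp this).symm
  have key : ∀ S : Finset ι, f (fun i => if i ∈ S then y' i else y i) = f y := by
    intro S
    induction S using Finset.induction_on with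
    | empty => simp
    | insert a S ha ih =>
      by_cases hyy : y' a = y a
      · rw [← ih]
        congr 1
        funext i
        by_cases hi : i = a
        · subst hi; simp [ha, hyy]
        · simp [hi]
      · rw [← ih, ← hfl a (fun i => if i ∈ S then y' i else y i)]
        congr 1
        funext i
        by_cases hi : i = a
        · subst hi
          simp only [L7h31.KN.flip, Function.update_self, Finset.mem_insert, true_or, if_true, ha, if_false]
          cases h1 : y' i <;> cases h2 : y i <;> simp_all
        · simp [L7h31.KN.flip, hi, Function.update_of_ne hi]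
  have := key Finset.univ
  simpa using this

theorem full_of (f : (ι → Bool) → ZMod 2) (h : ∀ j, D j f = 0) (hf : f ≠ 0) :
    (Finset.univ.filter fun y => f y ≠ 0).card = 2 ^ Fintype.card ι := by
  have hne : ∀ y, f y ≠ 0 := by
    intro y hy
    apply hf
    funext z
    rw [const_of f h y z, hy]; rfl
  rw [Finset.filter_true_of_mem (fun y _ => hne y), Finset.card_univ]
  simp

theorem flip_flip (j : ι) (y : ι → Bool) : L7h31.KN.flip j (L7h31.KN.flip j y) = y := by
  funext i
  by_cases hi : i = j
  · subst hi; simp [L7h31.KN.flip]
  · simp [L7h31.KN.flip, Function.update_of_ne hi]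

theorem s_MW : S_MW := by
  intro ι _ _ k
  induction k with
  | zero =>
    intro f hd hf
    rw [full_of f hd hf]; simp
  | succ k ih =>
    intro f hd hf
    by_cases hall : ∀ j, D j f = 0
    · rw [full_of f hall hf]
      exact Nat.le_mul_of_pos_right _ (by positivity)
    · push Not at hall
      obtain ⟨j, hj⟩ := hall
      have h1 := ih (D j f) (hd j) hj
      have h2 : (Finset.univ.filter fun y => D j f y ≠ 0).card ≤
          2 * (Finset.univ.filter fun y => f y ≠ 0).card := by
        have hsub : (Finset.univ.filter fun y => D j f y ≠ 0) ⊆
            (Finset.univ.filter fun y => f y ≠ 0) ∪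
              (Finset.univ.filter fun y => f y ≠ 0).image (L7h31.KN.flip j) := by
          intro y hy
          simp only [Finset.mem_filter, Finset.mem_univ, true_and, Finset.mem_union,
            Finset.mem_image] at hy ⊢
          by_cases hfy : f y = 0
          · right
            refine ⟨L7h31.KN.flip j y, ?_, flip_flip j y⟩
            intro h0
            apply hy
            simp [D, hfy, h0]
          · left; exact hfy
        calc _ ≤ _ := Finset.card_le_card hsub
          _ ≤ _ := Finset.card_union_le _ _
          _ ≤ _ := by
            have := Finset.card_image_le (s := Finset.univ.filter fun y => f y ≠ 0) (f := L7h31.KN.flip j)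
            omega
      calc 2 ^ Fintype.card ι ≤ _ := h1
        _ ≤ (2 * (Finset.univ.filter fun y => f y ≠ 0).card) * 2 ^ k :=
          Nat.mul_le_mul_right _ h2
        _ = _ := by ring

end Pool.Agent.L7h7.KN
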